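import Pool.Agent.L0h52.TB.Loop3
import Pool.Agent.L0h52.TB.Sol

set_option autoImplicit false

namespace Pool.Agent.Results.MP_c8123f_an.NotMinimizing

open Pool.Agent.L0h52.TB

/-- `x` minimizes the action among the continuously differentiable collision-free `T`-periodic
loops of the class `(1, 0, -1)`.  This is weaker than minimizing over the closure of the class, so
that `¬ IsMinimizing m T x` is stronger than not being minimizing in the sense of the problem. -/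
def IsMinimizing (m : Fin 3 → ℝ) (T : ℝ) (x : Fin 3 → ℝ → ℂ) : Prop :=
  ∀ y : Fin 3 → ℝ → ℂ, (∀ i, ContDiff ℝ 1 (y i)) → InClass m T y → action m T x ≤ action m T y

/-- explicit bound for the infimum of the action over the class, all masses and all periods:
with `P = m₀ (m₁ + m₂)`, `Q = m₁ m₂`, `M = m₀ + m₁ + m₂` it is
`3 (π² T / (2 M))^(1/3) ((P² (P + 2 Q))^(1/3) + (P Q²)^(1/3) / 2)`;
body `0` is the one around which the two others turn in opposite directions. -/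
noncomputable def bound (m : Fin 3 → ℝ) (T : ℝ) : ℝ :=
  3 * (Real.pi ^ 2 * T / (2 * (m 0 + m 1 + m 2))) ^ (1 / 3 : ℝ) *
    (((m 0 * (m 1 + m 2)) ^ 2 * (m 0 * (m 1 + m 2) + 2 * (m 1 * m 2))) ^ (1 / 3 : ℝ) +
      (m 0 * (m 1 + m 2) * (m 1 * m 2) ^ 2) ^ (1 / 3 : ℝ) / 2)

theorem opt (a b : ℝ) (ha : 0 < a) (hb : 0 < b) :
    ∃ C : ℝ, 0 < C ∧ a * C ^ 2 + b / C = 3 * (a * b ^ 2 / 4) ^ (1 / 3 : ℝ) := by
  set C := (b / (2 * a)) ^ (1 / 3 : ℝ) with hC
  have hC0 : 0 < C := Real.rpow_pos_of_pos (by positivity) _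
  have hC3 : C ^ 3 = b / (2 * a) := by
    rw [hC, ← Real.rpow_natCast, ← Real.rpow_mul (by positivity)]
    norm_num
  clear_value C
  refine ⟨C, hC0, ?_⟩
  have e1 : a * b ^ 2 / 4 = (b / (2 * C)) ^ 3 := by
    rw [div_pow, mul_pow, hC3]
    field_simp
    ring
  have cube : ∀ c : ℝ, 0 ≤ c → (c ^ 3) ^ (1 / 3 : ℝ) = c := by
    intro c hc
    rw [← Real.rpow_natCast, ← Real.rpow_mul hc]
    norm_num
  rw [e1, cube _ (by positivity)]
  have e2 : a * C ^ 2 = b / (2 * C) := by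
    rw [eq_div_iff (by positivity)]
    have : a * C ^ 2 * (2 * C) = 2 * a * C ^ 3 := by ring
    rw [this, hC3]
    field_simp
  rw [e2]
  field_simp
  ring

theorem upper (m : Fin 3 → ℝ) (hm : ∀ i, 0 < m i) (T : ℝ) (hT : 0 < T) :
    ∃ y : Fin 3 → ℝ → ℂ, (∀ i, ContDiff ℝ ⊤ (y i)) ∧ InClass m T y ∧
      action m T y ≤ bound m T := by
  have hpi := Real.pi_pos
  have m0 := hm 0
  have m1 := hm 1
  have m2 := hm 2
  set P := m 0 * (m 1 + m 2) with hP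
  set Q := m 1 * m 2 with hQ
  set M := m 0 + m 1 + m 2 with hM
  have hP0 : 0 < P := by positivity
  have hQ0 : 0 < Q := by positivity
  have hM0 : 0 < M := by positivity
  set w := 2 * Real.pi / T with hw
  have hw0 : 0 < w := by positivity
  obtain ⟨C, hC, eC⟩ := opt (w ^ 2 * (P + 2 * Q) / (2 * M)) P (by positivity) hP0
  obtain ⟨A, hA, eA⟩ := opt (w ^ 2 * P / (4 * M)) (Q / 2) (by positivity) (by positivity)
  obtain ⟨y, h1, h2, h3⟩ := loop m hm T hT A C hA hC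
  refine ⟨y, h1, h2, h3.trans (le_of_eq ?_)⟩
  have e1 : (2 * Real.pi / T) ^ 2 / (4 * M) * (P * (A ^ 2 + 2 * C ^ 2) + 4 * Q * C ^ 2) +
      P / C + Q / (2 * A) = (w ^ 2 * (P + 2 * Q) / (2 * M) * C ^ 2 + P / C) +
      (w ^ 2 * P / (4 * M) * A ^ 2 + Q / 2 / A) := by
    rw [← hw]
    field_simp
    ring
  rw [e1, eC, eA]
  have e2 : w ^ 2 * (P + 2 * Q) / (2 * M) * P ^ 2 / 4 =
      (1 / T) ^ 3 * ((Real.pi ^ 2 * T / (2 * M)) * (P ^ 2 * (P + 2 * Q))) := by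
    rw [hw]; field_simp; ring
  have e3 : w ^ 2 * P / (4 * M) * (Q / 2) ^ 2 / 4 =
      (1 / T) ^ 3 * ((1 / 2) ^ 3 * ((Real.pi ^ 2 * T / (2 * M)) * (P * Q ^ 2))) := by
    rw [hw]; field_simp; ring
  have cube : ∀ c : ℝ, 0 ≤ c → (c ^ 3) ^ (1 / 3 : ℝ) = c := by
    intro c hc
    rw [← Real.rpow_natCast, ← Real.rpow_mul hc]
    norm_num
  have r1 : ((1 / T) ^ 3 * ((Real.pi ^ 2 * T / (2 * M)) * (P ^ 2 * (P + 2 * Q)))) ^ (1 / 3 : ℝ) =
      1 / T * ((Real.pi ^ 2 * T / (2 * M)) ^ (1 / 3 : ℝ) * (P ^ 2 * (P + 2 * Q)) ^ (1 / 3 : ℝ)) := by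
    rw [Real.mul_rpow (by positivity) (by positivity), cube _ (by positivity),
      Real.mul_rpow (by positivity) (by positivity)]
  have r2 : ((1 / T) ^ 3 * ((1 / 2) ^ 3 * ((Real.pi ^ 2 * T / (2 * M)) * (P * Q ^ 2)))) ^ (1 / 3 : ℝ) =
      1 / T * (1 / 2 * ((Real.pi ^ 2 * T / (2 * M)) ^ (1 / 3 : ℝ) * (P * Q ^ 2) ^ (1 / 3 : ℝ))) := by
    rw [Real.mul_rpow (by positivity) (by positivity), cube _ (by positivity),
      Real.mul_rpow (by positivity) (by positivity), cube _ (by norm_num),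
      Real.mul_rpow (by positivity) (by positivity)]
  rw [e2, e3, r1, r2]
  unfold bound
  rw [← hP, ← hQ, ← hM]
  field_simp

/-- **Main result.**  For all masses and periods, every collision-free periodic solution of class
`(1, 0, -1)` whose energy is below `- bound m T / (3 T)` is not minimizing; and such solutions
exist: there are masses, a period and a collision-free periodic solution of class `(1, 0, -1)` with
this property, for which a smooth collision-free loop of the same class and period has less than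
two thirds of its action. -/
theorem result :
    (∃ (m : Fin 3 → ℝ) (T : ℝ) (x : Fin 3 → ℝ → ℂ), (∀ i, 0 < m i) ∧ 0 < T ∧
      IsSolution m x ∧ InClass m T x ∧ (∀ t, kin m x t - pot m x t < -(bound m T / (3 * T))) ∧
      ¬ IsMinimizing m T x ∧
      ∃ y : Fin 3 → ℝ → ℂ, (∀ i, ContDiff ℝ ⊤ (y i)) ∧ InClass m T y ∧
        action m T y < 2 / 3 * action m T x) ∧
    (∀ (m : Fin 3 → ℝ) (T : ℝ) (x : Fin 3 → ℝ → ℂ), (∀ i, 0 < m i) → 0 < T →
      IsSolution m x → InClass m T x →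
      (∃ t, kin m x t - pot m x t < -(bound m T / (3 * T))) → ¬ IsMinimizing m T x) := by
  have crit : ∀ (m : Fin 3 → ℝ) (T : ℝ) (x : Fin 3 → ℝ → ℂ), (∀ i, 0 < m i) → 0 < T →
      IsSolution m x → InClass m T x →
      (∃ t, kin m x t - pot m x t < -(bound m T / (3 * T))) → ¬ IsMinimizing m T x := by
    rintro m T x hm hT hs hx ⟨t, ht⟩ hmin
    obtain ⟨y, k1, k2, k3⟩ := upper m hm T hT
    have h1 := hmin y (fun i => (k1 i).of_le le_top) k2
    rw [action_eq' hs hx.2.2.1 hx.2.1 t] at h1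
    have h2 : bound m T < -3 * (kin m x t - pot m x t) * T := by
      have h3 : bound m T / (3 * T) * (3 * T) = bound m T := by field_simp
      nlinarith
    linarith
  refine ⟨?_, crit⟩
  obtain ⟨x, h1, h2, h3⟩ := sol
  have hm : ∀ i, 0 < (![1 / 4, 1 / 2, 1 / 2] : Fin 3 → ℝ) i := by
    intro i
    fin_cases i <;> norm_num
  obtain ⟨y, k1, k2, k3⟩ := upper ![1 / 4, 1 / 2, 1 / 2] hm 8 (by norm_num)
  have q0 : (![1 / 4, 1 / 2, 1 / 2] : Fin 3 → ℝ) 0 = 1 / 4 := rfl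
  have q1 : (![1 / 4, 1 / 2, 1 / 2] : Fin 3 → ℝ) 1 = 1 / 2 := rfl
  have q2 : (![1 / 4, 1 / 2, 1 / 2] : Fin 3 → ℝ) 2 = 1 / 2 := rfl
  have cube : ∀ c d : ℝ, 0 ≤ c → 0 ≤ d → d ≤ c ^ 3 → d ^ (1 / 3 : ℝ) ≤ c := by
    intro c d hc hd h
    calc d ^ (1 / 3 : ℝ) ≤ (c ^ 3) ^ (1 / 3 : ℝ) := Real.rpow_le_rpow hd h (by norm_num)
      _ = c := by
        rw [← Real.rpow_natCast, ← Real.rpow_mul hc]
        norm_num
  have k4 : bound ![1 / 4, 1 / 2, 1 / 2] 8 < 472 / 100 := by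
    unfold bound
    rw [q0, q1, q2]
    have hp := Real.pi_lt_d4
    have hp0 := Real.pi_pos
    have hp2 : Real.pi ^ 2 < 3.1416 ^ 2 := pow_lt_pow_left₀ hp hp0.le (by norm_num)
    have b1 : (Real.pi ^ 2 * 8 / (2 * (1 / 4 + 1 / 2 + 1 / 2)) : ℝ) ^ (1 / 3 : ℝ) ≤ 317 / 100 := by
      refine cube _ _ (by norm_num) (by positivity) ?_
      norm_num at hp2 ⊢
      nlinarith
    have b2 : ((1 / 4 * (1 / 2 + 1 / 2)) ^ 2 * (1 / 4 * (1 / 2 + 1 / 2) + 2 * (1 / 2 * (1 / 2))) : ℝ)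
        ^ (1 / 3 : ℝ) ≤ 361 / 1000 := by
      refine cube _ _ (by norm_num) (by positivity) ?_
      norm_num
    have b3 : ((1 / 4 * (1 / 2 + 1 / 2)) * (1 / 2 * (1 / 2)) ^ 2 : ℝ) ^ (1 / 3 : ℝ) ≤ 1 / 4 := by
      refine cube _ _ (by norm_num) (by positivity) ?_
      norm_num
    have p1 : 0 ≤ (Real.pi ^ 2 * 8 / (2 * (1 / 4 + 1 / 2 + 1 / 2)) : ℝ) ^ (1 / 3 : ℝ) := by positivity
    have p2 : 0 ≤ ((1 / 4 * (1 / 2 + 1 / 2)) ^ 2 * (1 / 4 * (1 / 2 + 1 / 2) + 2 * (1 / 2 * (1 / 2))) : ℝ)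
        ^ (1 / 3 : ℝ) := by positivity
    have p3 : 0 ≤ ((1 / 4 * (1 / 2 + 1 / 2)) * (1 / 2 * (1 / 2)) ^ 2 : ℝ) ^ (1 / 3 : ℝ) := by positivity
    refine lt_of_le_of_lt (b := 3 * (317 / 100) * (361 / 1000 + 1 / 4 / 2)) ?_ (by norm_num)
    exact mul_le_mul (by linarith) (by linarith) (by linarith) (by norm_num)
  have k5 : action ![1 / 4, 1 / 2, 1 / 2] 8 y < 2 / 3 * action ![1 / 4, 1 / 2, 1 / 2] 8 x := by
    linarith
  have hE : ∀ t, kin ![1 / 4, 1 / 2, 1 / 2] x t - pot ![1 / 4, 1 / 2, 1 / 2] x t <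
      -(bound ![1 / 4, 1 / 2, 1 / 2] 8 / (3 * 8)) := by
    intro t
    have := action_eq' h1 h2.2.2.1 h2.2.1 t
    rw [this] at h3
    linarith
  exact ⟨![1 / 4, 1 / 2, 1 / 2], 8, x, hm, by norm_num, h1, h2, hE,
    crit _ _ x hm (by norm_num) h1 h2 ⟨0, hE 0⟩, y, k1, k2, k5⟩

end Pool.Agent.Results.MP_c8123f_an.NotMinimizing
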